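import Pool.Agent.Helper59.MB.Goals3

/-!
# Packet MB-CLO (project MB, MP_49a1ce_an): `vv` is near `u`
-/

set_option autoImplicit false

open MeasureTheory Filter Topology Finset

namespace Pool.Agent.Helper2.MB

open Pool.Agent.Helper59.MB

noncomputable section

lemma CLO_geom (N : ℕ) : ∑ k ∈ range N, (1 / 2 : ℝ) ^ (k + 4) ≤ 1 / 8 := by
  have h1 : ∑ k ∈ range N, (1 / 2 : ℝ) ^ (k + 4) = 1 / 8 - (1 / 2) ^ (N + 3) := by
    induction N with
    | zero => norm_num
    | succ N ih =>
      rw [Finset.sum_range_succ, ih]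
      ring
  rw [h1]
  have : (0 : ℝ) < (1 / 2) ^ (N + 3) := by positivity
  linarith

theorem t_CLO : S_CLO := by
  classical
  intro u L T U hD N
  have h1 : {n : ℕ | n < N ∧ vv u L T U n ≠ u n} =
      ((range N).filter fun n => vv u L T U n ≠ u n : Finset ℕ) := by
    ext n
    simp
  have h2 : ∀ k, {n : ℕ | n < N ∧ wd u (L k) (n / L k) ∉ U k} =
      ((range N).filter fun n => wd u (L k) (n / L k) ∉ U k : Finset ℕ) := by
    intro k
    ext n
    simp
  rw [h1, Set.ncard_coe_finset]
  have hsub : ((range N).filter fun n => vv u L T U n ≠ u n) ⊆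
      (range N).biUnion fun k => (range N).filter fun n =>
        T k ≤ n ∧ wd u (L k) (n / L k) ∉ U k := by
    intro n hn
    rw [Finset.mem_filter] at hn
    have hv : ¬ ∀ k, T k ≤ n → wd u (L k) (n / L k) ∈ U k := by
      intro h3
      apply hn.2
      unfold vv
      exact if_pos h3
    push Not at hv
    obtain ⟨k, hk1, hk2⟩ := hv
    rw [Finset.mem_biUnion]
    refine ⟨k, ?_, ?_⟩
    · have h3 := Finset.mem_range.1 hn.1
      exact Finset.mem_range.2 (((hD.Tlarge k).trans hk1).trans_lt h3)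
    · exact Finset.mem_filter.2 ⟨hn.1, hk1, hk2⟩
  have hk : ∀ k, ((((range N).filter fun n =>
      T k ≤ n ∧ wd u (L k) (n / L k) ∉ U k).card : ℕ) : ℝ) ≤ (1 / 2) ^ (k + 4) * N := by
    intro k
    by_cases hT : T k ≤ N
    · have h3 := hD.freq k N hT
      rw [h2 k, Set.ncard_coe_finset] at h3
      refine le_trans ?_ h3
      exact_mod_cast Finset.card_le_card fun n hn => by
        rw [Finset.mem_filter] at hn ⊢
        exact ⟨hn.1, hn.2.2⟩
    · have h3 : ((range N).filter fun n => T k ≤ n ∧ wd u (L k) (n / L k) ∉ U k) = ∅ := by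
        refine Finset.filter_eq_empty_iff.2 fun n hn h4 => ?_
        have h5 := Finset.mem_range.1 hn
        have h6 := h4.1
        omega
      rw [h3, Finset.card_empty]
      push_cast
      positivity
  have hcard := (Finset.card_le_card hsub).trans Finset.card_biUnion_le
  calc ((((range N).filter fun n => vv u L T U n ≠ u n).card : ℕ) : ℝ)
      ≤ ((∑ k ∈ range N, ((range N).filter fun n =>
        T k ≤ n ∧ wd u (L k) (n / L k) ∉ U k).card : ℕ) : ℝ) := by exact_mod_cast hcard
    _ = ∑ k ∈ range N, ((((range N).filter fun n =>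
        T k ≤ n ∧ wd u (L k) (n / L k) ∉ U k).card : ℕ) : ℝ) := by push_cast; rfl
    _ ≤ ∑ k ∈ range N, (1 / 2 : ℝ) ^ (k + 4) * N := Finset.sum_le_sum fun k _ => hk k
    _ = (∑ k ∈ range N, (1 / 2 : ℝ) ^ (k + 4)) * N := by rw [Finset.sum_mul]
    _ ≤ 1 / 8 * N := mul_le_mul_of_nonneg_right (CLO_geom N) (Nat.cast_nonneg N)
    _ = N / 8 := by ring

end

end Pool.Agent.Helper2.MB
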