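import Pool.Agent.Helper50.MB.Goals

/-!
Project MB (MP_fda85d_co), packet MB-COD: the number of codes.
-/

namespace Pool.Agent.Helper2.MB

open Pool.Agent.Helper50.MB

/-- The small subsets of a finite set. -/
abbrev Sm {α : Type} (S : Finset α) (k : ℕ) : Type := {s : Finset α // s ⊆ S ∧ s.card ≤ k}

instance {α : Type} (S : Finset α) (k : ℕ) : Finite (Sm S k) := by
  have h : {s : Finset α | s ⊆ S ∧ s.card ≤ k}.Finite := by
    refine S.powerset.finite_toSet.subset ?_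
    intro s hs
    simpa using hs.1
  exact h.to_subtype

theorem card_Sm (hS : SUBS) {α : Type} (S : Finset α) (k : ℕ) :
    Nat.card (Sm S k) ≤ (S.card + 1) ^ k := by
  have h := hS α S k
  rwa [← Nat.card_coe_set_eq] at h

/-- The side `z` lies in `[-N, N)` if its crossing is less than `N`. -/
theorem mem_sides {N : ℕ} {z : ℤ} (h : cr z < N) : z ∈ Finset.Ico (-(N : ℤ)) N := by
  rw [Finset.mem_Ico]
  unfold cr at h
  split_ifs at h with h1
  · constructor <;> omega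
  · constructor <;> omega

theorem sides_mem {N : ℕ} {z : ℤ} (h : z ∈ Finset.Ico (-(N : ℤ)) N) : cr z < N := by
  rw [Finset.mem_Ico] at h
  unfold cr
  split_ifs with h1 <;> omega

theorem a_mem {N : ℕ} {a : ℤ → ℤ} (ha : SZ N a) {z : ℤ} (h : z ∈ Finset.Ico (-(N : ℤ)) N) :
    a z ∈ Finset.Ico (-(N : ℤ)) N := by
  by_contra hn
  have h1 : a z < -(N : ℤ) ∨ (N : ℤ) ≤ a z := by
    rw [Finset.mem_Ico] at hn
    omega
  have h2 := ha.nci.out _ h1
  rw [ha.nci.inv] at h2
  rw [← h2] at hn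
  exact hn h

theorem step_iff {p q p' q' : Prop} (h : p ↔ p') (h2 : (¬ (p ↔ q)) ↔ (¬ (p' ↔ q'))) :
    q ↔ q' := by
  tauto

theorem rec_sdiff {M : ℕ} {P P' : Finset ℕ} (h1 : P ⊆ Finset.range M)
    (h2 : P' ⊆ Finset.range M) (h3 : Finset.range M \ P = Finset.range M \ P') : P = P' := by
  rw [← Finset.sdiff_sdiff_eq_self h1, h3, Finset.sdiff_sdiff_eq_self h2]

open Classical in
theorem goalCOD (hDEC : DEC) (hSUBS : SUBS) (hFIN : FIN) : COD := by
  intro h N N1 N2 K
  set W : Set (ℤ → ℤ) := {a : ℤ → ℤ | SZ N a ∧ (h = true → HF a) ∧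
    ∃ (A : Finset ℕ) (b1 b2 : ℤ → ℤ) (io1 io2 : ℕ → ℕ),
    A ⊆ Finset.range N ∧ Cpl a A N1 b1 io1 ∧ Cpl a (Finset.range N \ A) N2 b2 io2 ∧
    (h = true → HF b1 ∧ HF b2) ∧ red N A ≤ K ∧ (cuts a A).ncard ≤ K ∧
    N1 ≤ A.card + 2 * K + 4 ∧ N2 ≤ (Finset.range N \ A).card + 2 * K + 4} with hW
  have key : ∀ a : W, ∃ (A : Finset ℕ) (b1 b2 : ℤ → ℤ) (io1 io2 : ℕ → ℕ),
    A ⊆ Finset.range N ∧ Cpl a.1 A N1 b1 io1 ∧ Cpl a.1 (Finset.range N \ A) N2 b2 io2 ∧
    (h = true → HF b1 ∧ HF b2) ∧ red N A ≤ K ∧ (cuts a.1 A).ncard ≤ K ∧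
    N1 ≤ A.card + 2 * K + 4 ∧ N2 ≤ (Finset.range N \ A).card + 2 * K + 4 := fun a => a.2.2.2
  choose A b1 b2 io1 io2 hA hc1 hc2 hf hred hcut hN1 hN2 using key
  have hF1 : Finite (T h N1) := (hFIN h N1).1
  have hF2 : Finite (T h N2) := (hFIN h N2).1
  -- the pieces of the code
  have himg : ∀ (B : Finset ℕ) (a b : ℤ → ℤ) (M : ℕ) (io : ℕ → ℕ), Cpl a B M b io →
      B.image io ⊆ Finset.range M ∧ (B.image io).card = B.card := by
    intro B a b M io hc
    refine ⟨?_, ?_⟩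
    · intro x hx
      obtain ⟨y, hy, rfl⟩ := Finset.mem_image.1 hx
      exact Finset.mem_range.2 (hc.lt y hy)
    · refine Finset.card_image_of_injOn ?_
      intro x hx y hy hxy
      by_contra hne
      rcases lt_or_gt_of_ne hne with h1 | h1
      · have := hc.mono x hx y hy h1
        exact absurd hxy this.ne
      · have := hc.mono y hy x hx h1
        exact absurd hxy this.ne'
  let Z : W → Finset ℕ := fun a =>
    (Finset.range N).filter fun i => i + 1 < N ∧ ¬ (i ∈ A a ↔ i + 1 ∈ A a)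
  have hZ : ∀ a, Z a ⊆ Finset.range N ∧ (Z a).card ≤ K := by
    intro a
    refine ⟨Finset.filter_subset _ _, ?_⟩
    have h1 : ((Z a : Finset ℕ) : Set ℕ) = {i : ℕ | i + 1 < N ∧ ¬ (i ∈ A a ↔ i + 1 ∈ A a)} := by
      ext i
      simp only [Z, Finset.coe_filter, Finset.mem_range, Set.mem_ofPred_eq]
      constructor
      · exact fun h => h.2
      · exact fun h => ⟨by omega, h⟩
    have h2 := hred a
    unfold red at h2
    rw [← h1, Set.ncard_coe_finset] at h2
    exact h2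
  let J1 : W → Finset ℕ := fun a => Finset.range N1 \ (A a).image (io1 a)
  have hJ1 : ∀ a, J1 a ⊆ Finset.range N1 ∧ (J1 a).card ≤ 2 * K + 4 := by
    intro a
    obtain ⟨i1, i2⟩ := himg _ _ _ _ _ (hc1 a)
    refine ⟨Finset.sdiff_subset, ?_⟩
    have h1 := Finset.card_sdiff_of_subset i1
    change (Finset.range N1 \ (A a).image (io1 a)).card ≤ _
    rw [h1, i2, Finset.card_range]
    have := hN1 a
    omega
  let J2 : W → Finset ℕ := fun a => Finset.range N2 \ (Finset.range N \ A a).image (io2 a)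
  have hJ2 : ∀ a, J2 a ⊆ Finset.range N2 ∧ (J2 a).card ≤ 2 * K + 4 := by
    intro a
    obtain ⟨i1, i2⟩ := himg _ _ _ _ _ (hc2 a)
    refine ⟨Finset.sdiff_subset, ?_⟩
    have h1 := Finset.card_sdiff_of_subset i1
    change (Finset.range N2 \ (Finset.range N \ A a).image (io2 a)).card ≤ _
    rw [h1, i2, Finset.card_range]
    have := hN2 a
    omega
  let S : Finset ℤ := Finset.Ico (-(N : ℤ)) N
  have hScard : (S ×ˢ S).card = 4 * N ^ 2 := by
    rw [Finset.card_product]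
    have : S.card = 2 * N := by
      change (Finset.Ico (-(N : ℤ)) N).card = _
      rw [Int.card_Ico]
      omega
    rw [this]
    ring
  have hcs : ∀ a, cuts a.1 (A a) ⊆ ((S ×ˢ S : Finset (ℤ × ℤ)) : Set (ℤ × ℤ)) := by
    intro a q hq
    obtain ⟨q1, q2, -⟩ := hq
    have h1 : q.1 ∈ S := mem_sides (Finset.mem_range.1 (hA a q2))
    rw [Finset.mem_coe, Finset.mem_product]
    refine ⟨h1, ?_⟩
    rw [q1]
    exact a_mem a.2.1 h1
  let Q : W → Finset (ℤ × ℤ) := fun a => (S ×ˢ S).filter fun q => q ∈ cuts a.1 (A a)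
  have hQc : ∀ a, ((Q a : Finset (ℤ × ℤ)) : Set (ℤ × ℤ)) = cuts a.1 (A a) := by
    intro a
    ext q
    simp only [Q, Finset.coe_filter, Set.mem_ofPred_eq]
    constructor
    · exact fun h => h.2
    · exact fun h => ⟨Finset.mem_coe.1 (hcs a h), h⟩
  have hQ : ∀ a, Q a ⊆ S ×ˢ S ∧ (Q a).card ≤ K := by
    intro a
    refine ⟨Finset.filter_subset _ _, ?_⟩
    have h2 := hcut a
    rw [← hQc a, Set.ncard_coe_finset] at h2
    exact h2
  let code : W → Bool × (Sm (Finset.range N) K × ((Sm (Finset.range N1) (2 * K + 4) ×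
      Sm (Finset.range N2) (2 * K + 4)) × (Sm (S ×ˢ S) K × (T h N1 × T h N2)))) := fun a =>
    (decide (0 ∈ A a), ⟨Z a, hZ a⟩, (⟨J1 a, hJ1 a⟩, ⟨J2 a, hJ2 a⟩), ⟨Q a, hQ a⟩,
      ⟨b1 a, (hc1 a).sz, fun hh => (hf a hh).1⟩, ⟨b2 a, (hc2 a).sz, fun hh => (hf a hh).2⟩)
  have hinj : Function.Injective code := by
    intro a a' haa
    have e0 : decide (0 ∈ A a) = decide (0 ∈ A a') := congrArg (fun t => t.1) haa
    have eZ : Z a = Z a' := congrArg (fun t => t.2.1.1) haa
    have eJ1 : J1 a = J1 a' := congrArg (fun t => t.2.2.1.1.1) haa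
    have eJ2 : J2 a = J2 a' := congrArg (fun t => t.2.2.1.2.1) haa
    have eQ : Q a = Q a' := congrArg (fun t => t.2.2.2.1.1) haa
    have eb1 : b1 a = b1 a' := congrArg (fun t => t.2.2.2.2.1.1) haa
    have eb2 : b2 a = b2 a' := congrArg (fun t => t.2.2.2.2.2.1) haa
    have e0' : 0 ∈ A a ↔ 0 ∈ A a' := by
      have := decide_eq_decide.1 e0
      exact this
    have hAA : ∀ i, i < N → (i ∈ A a ↔ i ∈ A a') := by
      intro i
      induction i with
      | zero => exact fun _ => e0'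
      | succ i ih =>
        intro hi
        have h1 := ih (by omega)
        have h2 : i ∈ Z a ↔ i ∈ Z a' := by rw [eZ]
        simp only [Z, Finset.mem_filter, Finset.mem_range] at h2
        refine step_iff h1 ?_
        constructor
        · intro h4
          exact (h2.1 ⟨by omega, hi, h4⟩).2.2
        · intro h4
          exact (h2.2 ⟨by omega, hi, h4⟩).2.2
    have hAeq : A a = A a' := by
      ext i
      by_cases hi : i < N
      · exact hAA i hi
      · constructor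
        · intro h'
          exact absurd (Finset.mem_range.1 (hA a h')) hi
        · intro h'
          exact absurd (Finset.mem_range.1 (hA a' h')) hi
    have hI1 := rec_sdiff (himg _ _ _ _ _ (hc1 a)).1 (himg _ _ _ _ _ (hc1 a')).1 eJ1
    have hI2 := rec_sdiff (himg _ _ _ _ _ (hc2 a)).1 (himg _ _ _ _ _ (hc2 a')).1 eJ2
    have hcc : cuts a.1 (A a) = cuts a'.1 (A a') := by
      rw [← hQc a, ← hQc a', eQ]
    have c1 := hc1 a'
    have c2 := hc2 a'
    rw [← hAeq, ← eb1] at c1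
    rw [← hAeq, ← eb2] at c2
    rw [← hAeq] at hI1 hI2 hcc
    exact Subtype.ext (hDEC N N1 N2 (A a) a.1 a'.1 (b1 a) (b2 a) _ _ _ _ (hA a) a.2.1 a'.2.1
      (hc1 a) c1 (hc2 a) c2 hI1 hI2 hcc)
  have hle := Nat.card_le_card_of_injective code hinj
  rw [Nat.card_coe_set_eq] at hle
  refine hle.trans ?_
  rw [Nat.card_prod, Nat.card_prod, Nat.card_prod, Nat.card_prod, Nat.card_prod, Nat.card_prod]
  have k1 := card_Sm hSUBS (Finset.range N) K
  have k2 := card_Sm hSUBS (Finset.range N1) (2 * K + 4)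
  have k3 := card_Sm hSUBS (Finset.range N2) (2 * K + 4)
  have k4 := card_Sm hSUBS (S ×ˢ S) K
  rw [Finset.card_range] at k1 k2 k3
  rw [hScard] at k4
  have k0 : Nat.card Bool = 2 := by simp
  rw [k0]
  change 2 * (_ * ((_ * _) * (_ * (cT h N1 * cT h N2)))) ≤ _
  calc _ ≤ 2 * ((N + 1) ^ K * (((N1 + 1) ^ (2 * K + 4) * (N2 + 1) ^ (2 * K + 4)) *
        ((4 * N ^ 2 + 1) ^ K * (cT h N1 * cT h N2)))) := by gcongr
    _ = _ := by ring

end Pool.Agent.Helper2.MB
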