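import Pool.Agent.Helper59.MB.Goals2

/-!
# Packet MB-STG (project MB, MP_49a1ce_an): one stage
-/

set_option autoImplicit false

open MeasureTheory Filter Topology Finset

namespace Pool.Agent.Helper2.MB

open Pool.Agent.Helper59.MB

noncomputable section

namespace STG

lemma P_pos (s : ℕ → ℕ) (k : ℕ) : 0 < P s k := by
  unfold P
  positivity

lemma P_dvd {s : ℕ → ℕ} (hs : StrictMono s) {j k : ℕ} (h : j ≤ k) : P s j ∣ P s k :=
  pow_dvd_pow 2 (hs.monotone h)

lemma P_le {s : ℕ → ℕ} (hs : StrictMono s) {j k : ℕ} (h : j ≤ k) : P s j ≤ P s k :=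
  Nat.le_of_dvd (P_pos s k) (P_dvd hs h)

variable {s : ℕ → ℕ} {V : ℕ → Set (ℕ → ℝ)} {m : Measure A} [IsProbabilityMeasure m]

omit [IsProbabilityMeasure m] in
lemma good_of_hgood {k : ℕ} {w : Wd} (h : HGood s V m k w) : Good s V m k w := by
  intro l hl i₁ i₂ h1 h2 v hv
  refine (h l hl i₁ i₂ h1 h2 v hv).trans ?_
  apply mul_le_mul_of_nonneg_right _ (Nat.cast_nonneg _)
  have hk : (0 : ℝ) ≤ k := Nat.cast_nonneg k
  exact one_div_le_one_div_of_le (by linarith) (by linarith)

lemma cat_congr (hLOP : S_LOP) (hs : StrictMono s) (j : ℕ) (w w' : Wd) (i : ℕ)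
    (h : ∀ a < P s j, w (P s j * (i / P s j) + a) = w' (P s j * (i / P s j) + a)) :
    cat s j (Phi s V m j) w i = cat s j (Phi s V m j) w' i := by
  unfold cat
  exact (hLOP s V m hs).2.1 j _ _ h (i % P s j) (Nat.mod_lt _ (P_pos s j))

lemma blk_lt (hs : StrictMono s) {j k : ℕ} (hj : j ≤ k) {i a : ℕ} (hi : i < P s k)
    (ha : a < P s j) : P s j * (i / P s j) + a < P s k := by
  obtain ⟨t, ht⟩ := P_dvd hs hj
  rw [ht] at hi ⊢
  have h1 : i / P s j < t := Nat.div_lt_of_lt_mul hi
  calc P s j * (i / P s j) + a < P s j * (i / P s j) + P s j := by omega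
    _ = P s j * (i / P s j + 1) := by ring
    _ ≤ P s j * t := Nat.mul_le_mul_left _ h1

lemma good_congr (hLOP : S_LOP) (hs : StrictMono s) {j k : ℕ} (hj : j < k) (w w' : Wd)
    (h : ∀ i < P s k, w i = w' i) :
    Good s V m j (cat s j (Phi s V m j) w) ↔ Good s V m j (cat s j (Phi s V m j) w') := by
  refine (hLOP s V m hs).1 j _ _ _ _ fun a ha d _ => ?_
  rw [cat_congr hLOP hs j w w' a fun b hb => h _ ?_]
  exact (blk_lt hs (Nat.le_succ j) ha hb).trans_le (P_le hs hj)

lemma from_from (x y : ℕ) (w : Wd) : from' x (from' y w) = from' (y + x) w := by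
  funext i
  show w (y + (x + i)) = w (y + x + i)
  rw [add_assoc]

lemma blk_div (hs : StrictMono s) {j k : ℕ} (hj : j ≤ k) (n : ℕ) :
    P s k * (n / P s k) + P s j * (n % P s k / P s j) = P s j * (n / P s j) := by
  obtain ⟨t, ht⟩ := P_dvd hs hj
  have h0 := P_pos s j
  have h1 : n = P s j * (t * (n / P s k)) + n % P s k := by
    have := Nat.div_add_mod n (P s k)
    rw [ht] at this ⊢
    rw [← mul_assoc]
    exact this.symm
  have h2 : n / P s j = t * (n / P s k) + n % P s k / P s j := by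
    conv_lhs => rw [h1]
    rw [Nat.mul_add_div h0]
  rw [h2, mul_add, ← mul_assoc, ← ht]

/-- the words which have to be modified at level `j`. -/
def bd (s : ℕ → ℕ) (m : Measure A) [IsProbabilityMeasure m] (j : ℕ) : Set Wd :=
  {w | ¬ Good s V1 m j (cat s j (Phi s V1 m j) w)}

lemma bd_meas (hMEA : S_MEA) (j : ℕ) : MeasurableSet (bd s m j) := by
  have h := hMEA s V1 m (fun k => Set.countable_singleton _)
  exact (h.2.2.1 j _ (h.2.2.2 j)) ((h.2.1 j _ _).compl)

/-- the cost function. -/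
def Cf (s : ℕ → ℕ) (m : Measure A) [IsProbabilityMeasure m] (d k : ℕ) (w : Wd) : ℝ :=
  ∑ j ∈ Ico d k, (P s (j + 1) : ℝ) * (bd s m j).indicator (fun _ => (1 : ℝ)) w

lemma ind_nonneg (j : ℕ) (w : Wd) : 0 ≤ (bd s m j).indicator (fun _ => (1 : ℝ)) w :=
  Set.indicator_nonneg (fun _ _ => zero_le_one) w

lemma ind_le (j : ℕ) (w : Wd) : (bd s m j).indicator (fun _ => (1 : ℝ)) w ≤ 1 :=
  Set.indicator_le_self' (fun _ _ => zero_le_one) w

lemma Cf_nonneg (d k : ℕ) (w : Wd) : 0 ≤ Cf s m d k w :=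
  Finset.sum_nonneg fun j _ => mul_nonneg (Nat.cast_nonneg _) (ind_nonneg j w)

lemma Cf_le (hs : StrictMono s) (d k : ℕ) (w : Wd) : Cf s m d k w ≤ k * P s k := by
  calc Cf s m d k w ≤ ∑ _j ∈ Ico d k, (P s k : ℝ) := by
        refine Finset.sum_le_sum fun j hj => ?_
        have h1 : (P s (j + 1) : ℝ) ≤ P s k := by
          exact_mod_cast P_le hs (Finset.mem_Ico.1 hj).2
        calc (P s (j + 1) : ℝ) * (bd s m j).indicator (fun _ => (1 : ℝ)) w
            ≤ (P s (j + 1) : ℝ) * 1 :=
              mul_le_mul_of_nonneg_left (ind_le j w) (Nat.cast_nonneg _)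
          _ ≤ P s k := by rwa [mul_one]
    _ = ((k - d : ℕ) : ℝ) * P s k := by
        rw [Finset.sum_const, Nat.card_Ico, nsmul_eq_mul]
    _ ≤ k * P s k := by
        refine mul_le_mul_of_nonneg_right ?_ (Nat.cast_nonneg _)
        exact_mod_cast Nat.sub_le k d

lemma Cf_congr (hLOP : S_LOP) (hs : StrictMono s) (d k : ℕ) (w w' : Wd)
    (h : ∀ i < P s k, w i = w' i) : Cf s m d k w = Cf s m d k w' := by
  unfold Cf
  refine Finset.sum_congr rfl fun j hj => ?_
  congr 1
  have h1 := good_congr (V := V1) (m := m) hLOP hs (Finset.mem_Ico.1 hj).2 w w' h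
  by_cases h2 : w ∈ bd s m j
  · have h3 : w' ∈ bd s m j := fun h4 => h2 (h1.2 h4)
    rw [Set.indicator_of_mem h2, Set.indicator_of_mem h3]
  · have h3 : w' ∉ bd s m j := fun h4 => h2 fun h5 => h4 (h1.1 h5)
    rw [Set.indicator_of_notMem h2, Set.indicator_of_notMem h3]

lemma Cf_meas (hMEA : S_MEA) (d k : ℕ) : Measurable (Cf s m d k) := by
  unfold Cf
  exact Finset.measurable_sum _ fun j _ =>
    (measurable_const.indicator (bd_meas hMEA j)).const_mul _

instance : IsProbabilityMeasure (Q m) := by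
  unfold Q
  infer_instance

lemma sum_half (d k : ℕ) : ∑ j ∈ Ico d k, (1 / 2 : ℝ) ^ (j + 2) ≤ (1 / 2) ^ (d + 1) := by
  rcases le_total k d with h | h
  · rw [Finset.Ico_eq_empty_of_le h, Finset.sum_empty]
    positivity
  · have h1 : ∑ j ∈ Ico d k, (1 / 2 : ℝ) ^ (j + 2) = (1 / 2) ^ (d + 1) - (1 / 2) ^ (k + 1) := by
      induction k, h using Nat.le_induction with
      | base => simp
      | succ k hk ih =>
        rw [Finset.sum_Ico_succ_top hk, ih]
        ring
    rw [h1]
    have : (0 : ℝ) < (1 / 2) ^ (k + 1) := by positivity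
    linarith

lemma Cf_int (hMEA : S_MEA) {k : ℕ} (hP : Par s V1 m k) (d : ℕ) :
    ∫ w, Cf s m d k w ∂(Q m) ≤ (1 / 2) ^ (d + 1) := by
  unfold Cf
  rw [integral_finsetSum _ fun j _ =>
    ((integrable_const (1 : ℝ)).indicator (bd_meas hMEA j)).const_mul _]
  refine le_trans (Finset.sum_le_sum fun j hj => ?_) (sum_half d k)
  rw [integral_const_mul]
  have h1 : ∫ w, (bd s m j).indicator (fun _ => (1 : ℝ)) w ∂(Q m) = (Q m).real (bd s m j) :=
    integral_indicator_one (bd_meas hMEA j)
  rw [h1]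
  have h2 := (hP.adm j (Finset.mem_Ico.1 hj).2).1
  have h3 : (Q m).real (bd s m j) ≤ (1 / 2) ^ (j + 2) / P s (j + 1) := by
    refine le_trans (measureReal_mono ?_) h2
    intro w hw h4
    exact hw (good_of_hgood h4)
  have h4 : (0 : ℝ) < P s (j + 1) := by exact_mod_cast P_pos s (j + 1)
  calc (P s (j + 1) : ℝ) * (Q m).real (bd s m j)
      ≤ P s (j + 1) * ((1 / 2) ^ (j + 2) / P s (j + 1)) := mul_le_mul_of_nonneg_left h3 h4.le
    _ = (1 / 2) ^ (j + 2) := by field_simp

/-- the digit `d`, centered. -/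
def gf (d : ℕ) (p : ℝ) (a : A) : ℝ := (if a d = true then (1 : ℝ) else 0) - p

lemma meas_dig (d : ℕ) : MeasurableSet {a : A | a d = true} := by
  have h : Measurable fun a : A => a d := measurable_pi_apply d
  exact h (MeasurableSet.singleton true)

lemma gf_eq (d : ℕ) (p : ℝ) :
    gf d p = fun a => {a : A | a d = true}.indicator (fun _ => (1 : ℝ)) a - p := by
  funext a
  unfold gf
  by_cases h : a d = true
  · rw [if_pos h, Set.indicator_of_mem (show a ∈ {a : A | a d = true} from h)]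
  · rw [if_neg h, Set.indicator_of_notMem (show a ∉ {a : A | a d = true} from h)]

lemma gf_meas (d : ℕ) (p : ℝ) : Measurable (gf d p) := by
  rw [gf_eq]
  exact (measurable_const.indicator (meas_dig d)).sub_const _

lemma gf_le (d : ℕ) {p : ℝ} (h0 : 0 ≤ p) (h1 : p ≤ 1) (a : A) : |gf d p a| ≤ 1 := by
  unfold gf
  rw [abs_le]
  split_ifs <;> constructor <;> linarith

lemma int_ind (d : ℕ) : Integrable ({a : A | a d = true}.indicator (fun _ => (1 : ℝ))) m :=
  (integrable_const (1 : ℝ)).indicator (meas_dig d)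

lemma gf_int (d : ℕ) {p : ℝ} (hp : p = m.real {a | a d = true}) : ∫ a, gf d p a ∂m = 0 := by
  rw [gf_eq, integral_sub (int_ind d) (integrable_const _)]
  have h1 : ∫ a, {a : A | a d = true}.indicator (fun _ => (1 : ℝ)) a ∂m =
      m.real {a : A | a d = true} := integral_indicator_one (meas_dig d)
  rw [h1, integral_const, probReal_univ, one_smul, hp, sub_self]

lemma gf_int2 (d : ℕ) {p : ℝ} (hp : p = m.real {a | a d = true}) :
    ∫ a, gf d p a ^ 2 ∂m = p * (1 - p) := by
  have h0 : (fun a => gf d p a ^ 2) = fun a =>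
      (1 - 2 * p) * {a : A | a d = true}.indicator (fun _ => (1 : ℝ)) a + p ^ 2 := by
    funext a
    unfold gf
    by_cases h : a d = true
    · rw [if_pos h, Set.indicator_of_mem (show a ∈ {a : A | a d = true} from h)]
      ring
    · rw [if_neg h, Set.indicator_of_notMem (show a ∉ {a : A | a d = true} from h)]
      ring
  rw [h0, integral_add ((int_ind d).const_mul _) (integrable_const _), integral_const_mul]
  have h1 : ∫ a, {a : A | a d = true}.indicator (fun _ => (1 : ℝ)) a ∂m =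
      m.real {a : A | a d = true} := integral_indicator_one (meas_dig d)
  rw [h1, integral_const, probReal_univ, one_smul, ← hp]
  ring

open Classical in
/-- counting the modified places. -/
lemma count (hMOF : S_MOF) (hs : StrictMono s) (k d N : ℕ) (a w : Wd)
    (hw : ∀ i, P s k ≤ i → w i = a i) :
    ((((Icc 1 N).filter fun n => P s k ≤ n ∧ n ≤ N - P s k ∧
      cat s k (Phi s V1 m k) w n d ≠ a n d).card : ℕ) : ℝ) ≤
      ∑ n ∈ Icc 1 (N - P s k), Cf s m d k (from' n a) := by
  set R := P s k with hR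
  have hRp : 0 < R := P_pos s k
  have hsum : ∑ n ∈ Icc 1 (N - R), Cf s m d k (from' n a) =
      ∑ j ∈ Ico d k, (P s (j + 1) : ℝ) *
        ((((Icc 1 (N - R)).filter fun n => from' n a ∈ bd s m j).card : ℕ) : ℝ) := by
    unfold Cf
    rw [Finset.sum_comm]
    refine Finset.sum_congr rfl fun j _ => ?_
    rw [← Finset.mul_sum, ← Finset.sum_boole]
    congr 1
  rw [hsum]
  set Bd := (Icc 1 N).filter fun n => R ≤ n ∧ n ≤ N - R ∧
      cat s k (Phi s V1 m k) w n d ≠ a n d with hBd
  have hsub : Bd ⊆ (Ico d k).biUnion fun j => Bd.filter fun n =>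
      from' (P s (j + 1) * (n / P s (j + 1))) a ∈ bd s m j := by
    intro n hn
    have hn0 := hn
    rw [hBd, Finset.mem_filter] at hn
    obtain ⟨_, hn1, hn2, hn3⟩ := hn
    have hq : R ≤ R * (n / R) := by
      have : 1 ≤ n / R := Nat.div_pos hn1 hRp
      nlinarith
    have h1 : from' (R * (n / R)) w = from' (R * (n / R)) a := by
      funext i
      exact hw _ (by omega)
    have h2 : Phi s V1 m k (from' (R * (n / R)) a) (n % R) d ≠
        from' (R * (n / R)) a (n % R) d := by
      intro h3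
      apply hn3
      have h4 : cat s k (Phi s V1 m k) w n = Phi s V1 m k (from' (R * (n / R)) w) (n % R) := rfl
      rw [h4, h1, h3]
      show a (R * (n / R) + n % R) d = a n d
      rw [Nat.div_add_mod]
    obtain ⟨j, hj1, hj2, hj3⟩ := hMOF s V1 m hs k d (n % R) _ (Nat.mod_lt _ hRp) h2
    rw [from_from, blk_div hs hj2] at hj3
    rw [Finset.mem_biUnion]
    refine ⟨j, Finset.mem_Ico.2 ⟨hj1, hj2⟩, ?_⟩
    rw [Finset.mem_filter]
    exact ⟨hn0, hj3⟩
  have hcard : Bd.card ≤ ∑ j ∈ Ico d k, P s (j + 1) *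
      ((Icc 1 (N - R)).filter fun n => from' n a ∈ bd s m j).card := by
    refine (Finset.card_le_card hsub).trans (Finset.card_biUnion_le.trans ?_)
    refine Finset.sum_le_sum fun j hj => ?_
    have hj2 := (Finset.mem_Ico.1 hj).2
    have hp := P_pos s (j + 1)
    refine (Finset.card_le_mul_card_image (f := fun n => P s (j + 1) * (n / P s (j + 1))) _
      (P s (j + 1)) ?_).trans (Nat.mul_le_mul_left _ (Finset.card_le_card ?_))
    · intro q _
      calc _ ≤ (Ico q (q + P s (j + 1))).card := by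
            refine Finset.card_le_card fun n hn => ?_
            rw [Finset.mem_filter] at hn
            have h1 := hn.2
            have h2 := Nat.div_add_mod n (P s (j + 1))
            have h3 := Nat.mod_lt n hp
            rw [Finset.mem_Ico]
            constructor <;> omega
        _ = P s (j + 1) := by rw [Nat.card_Ico]; omega
    · intro q hq
      rw [Finset.mem_image] at hq
      obtain ⟨n, hn, rfl⟩ := hq
      rw [Finset.mem_filter] at hn
      obtain ⟨hn1, hn2⟩ := hn
      rw [hBd, Finset.mem_filter] at hn1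
      obtain ⟨_, hn3, hn4, _⟩ := hn1
      have h2 := Nat.div_add_mod n (P s (j + 1))
      have h4 : P s (j + 1) ≤ n := (P_le hs hj2).trans hn3
      have h5 : 1 ≤ n / P s (j + 1) := Nat.div_pos h4 hp
      have h6 : P s (j + 1) ≤ P s (j + 1) * (n / P s (j + 1)) := by nlinarith
      rw [Finset.mem_filter, Finset.mem_Icc]
      exact ⟨⟨by omega, by omega⟩, hn2⟩
  calc ((Bd.card : ℕ) : ℝ) ≤ ((∑ j ∈ Ico d k, P s (j + 1) *
      ((Icc 1 (N - R)).filter fun n => from' n a ∈ bd s m j).card : ℕ) : ℝ) := by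
        exact_mod_cast hcard
    _ = _ := by push_cast; rfl

end STG

open STG

theorem t_STG (hLOP : S_LOP) (hMEA : S_MEA) (hMOF : S_MOF) (hKEY : S_KEY) : S_STG := by
  intro s m _ k d u δ p hP hu hδ hNP hp hc w₀ N₀
  classical
  have hs := hP.mono
  set R := P s k with hR
  have hRp : 0 < R := P_pos s k
  set c : ℝ := δ / 2 * (p * (1 - p)) with hcdef
  have hc0 : 0 < c := by
    have : (0 : ℝ) < (1 / 2) ^ (d + 1) := by positivity
    linarith
  have hp0 : 0 ≤ p := by rw [hp]; exact measureReal_nonneg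
  have hp1 : p ≤ 1 := by rw [hp]; exact measureReal_le_one
  obtain ⟨N, hN, a, ha⟩ := hKEY m (gf d p) (gf_meas d p) (gf_le d hp0 hp1) (gf_int d hp) u hu δ hδ
    hNP R (Cf s m d k) (k * R) (Cf_meas hMEA d k) (fun w => ⟨Cf_nonneg d k w, Cf_le hs d k w⟩)
    (Cf_congr hLOP hs d k) (c / 4) (by linarith) (max N₀ ⌈8 * (R : ℝ) / c⌉₊)
  have hN1 : N₀ ≤ N := (le_max_left _ _).trans hN
  have hN2 : 8 * (R : ℝ) ≤ c * N := by
    have h1 : 8 * (R : ℝ) / c ≤ N :=
      (Nat.le_ceil _).trans (by exact_mod_cast (le_max_right _ _).trans hN)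
    rw [div_le_iff₀ hc0] at h1
    linarith
  rw [gf_int2 d hp, ← hcdef] at ha
  have hCi := Cf_int hMEA hP d
  have ha2 : c / 2 * N ≤ ∑ n ∈ Icc 1 N, gf d p (a n) * u n -
      ∑ n ∈ Icc 1 (N - R), Cf s m d k (from' n a) := by
    refine le_trans ?_ ha
    have : (0 : ℝ) ≤ N := Nat.cast_nonneg N
    nlinarith
  set w : Wd := fun i => if i < R then w₀ i else a i with hw
  have hwa : ∀ i, R ≤ i → w i = a i := fun i hi => if_neg (not_lt.2 hi)
  refine ⟨N, hN1, w, fun i hi => if_pos hi, ?_⟩
  have hcount := count (m := m) hMOF hs k d N a w hwa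
  set Df := (Icc 1 N).filter fun n => cat s k (Phi s V1 m k) w n d ≠ a n d with hDf
  set Bd := (Icc 1 N).filter fun n => P s k ≤ n ∧ n ≤ N - P s k ∧
      cat s k (Phi s V1 m k) w n d ≠ a n d with hBd
  have hDcard : Df.card ≤ Bd.card + 2 * R := by
    have hsub : Df ⊆ Bd ∪ (Finset.range R ∪ Ioc (N - R) N) := by
      intro n hn
      rw [hDf, Finset.mem_filter] at hn
      rw [Finset.mem_union, Finset.mem_union, hBd, Finset.mem_filter]
      by_cases h1 : n < R
      · exact Or.inr (Or.inl (Finset.mem_range.2 h1))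
      · by_cases h2 : n ≤ N - R
        · exact Or.inl ⟨hn.1, not_lt.1 h1, h2, hn.2⟩
        · exact Or.inr (Or.inr (Finset.mem_Ioc.2 ⟨not_le.1 h2, (Finset.mem_Icc.1 hn.1).2⟩))
    refine (Finset.card_le_card hsub).trans ((Finset.card_union_le _ _).trans ?_)
    have h1 := Finset.card_union_le (Finset.range R) (Ioc (N - R) N)
    rw [Finset.card_range, Nat.card_Ioc] at h1
    omega
  have hdiff : ∑ n ∈ Icc 1 N, gf d p (a n) * u n - (Df.card : ℝ) ≤
      ∑ n ∈ Icc 1 N, ((if cat s k (Phi s V1 m k) w n d = true then (1 : ℝ) else 0) - p) *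
        u n := by
    rw [hDf, Finset.card_filter]
    push_cast
    rw [← Finset.sum_sub_distrib]
    refine Finset.sum_le_sum fun n _ => ?_
    have hun : |(u n : ℝ)| ≤ 1 := by exact_mod_cast hu n
    rw [abs_le] at hun
    unfold gf
    by_cases h1 : cat s k (Phi s V1 m k) w n d = a n d
    · rw [h1, if_neg (not_not.2 rfl), sub_zero]
    · rw [if_pos h1]
      by_cases h2 : cat s k (Phi s V1 m k) w n d = true
      · have h3 : a n d ≠ true := fun h4 => h1 (h2.trans h4.symm)
        rw [if_pos h2, if_neg h3]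
        linarith
      · have h3 : a n d = true := by
          rw [Bool.not_eq_true] at h2
          by_contra h4
          rw [Bool.not_eq_true] at h4
          exact h1 (h2.trans h4.symm)
        rw [if_neg h2, if_pos h3]
        linarith
  have hDr : (Df.card : ℝ) ≤ Bd.card + 2 * R := by exact_mod_cast hDcard
  linarith

end

end Pool.Agent.Helper2.MB
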